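import Mathlib

namespace Pool.Agent.Results.MP_ca5fbf_co.SecondFormulaLarger

open Finset

open Classical in
/-- `r₃(m)`: the largest size of a subset of `{1,…,m}` with no `a, a+d, a+2d`, `d ≥ 1`. -/
noncomputable def r3 (m : ℕ) : ℕ :=
  ((Icc 1 m).powerset.filter
    (fun S => ∀ a d : ℕ, 1 ≤ d → ¬ (a ∈ S ∧ a + d ∈ S ∧ a + 2 * d ∈ S))).sup Finset.card

/-- `A(n) = n - r₃(⌈n/3⌉)` -/
noncomputable def A (n : ℕ) : ℤ := (n : ℤ) - (r3 ⌈(n : ℚ) / 3⌉₊ : ℤ)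

/-- `B(n) = n - max_{k+l=⌈n/2⌉} (r₃(⌈k/2⌉) + r₃(⌈l/2⌉))` -/
noncomputable def B (n : ℕ) : ℤ :=
  (n : ℤ) - (((HasAntidiagonal.antidiagonal ⌈(n : ℚ) / 2⌉₊).sup
    (fun kl => r3 ⌈(kl.1 : ℚ) / 2⌉₊ + r3 ⌈(kl.2 : ℚ) / 2⌉₊) : ℕ) : ℤ)

theorem ceil_half_le (k : ℕ) : ⌈(k : ℚ) / 2⌉₊ ≤ (k + 1) / 2 := by
  rw [Nat.ceil_le]
  have : k ≤ 2 * ((k + 1) / 2) := by omega
  have h : (k : ℚ) ≤ 2 * (((k + 1) / 2 : ℕ) : ℚ) := by exact_mod_cast this
  linarith

theorem ceil_third (m : ℕ) : ⌈((3 * m : ℕ) : ℚ) / 3⌉₊ = m := by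
  have : ((3 * m : ℕ) : ℚ) / 3 = m := by push_cast; ring
  rw [this, Nat.ceil_natCast]

theorem r3_le (m : ℕ) : r3 m ≤ m := by
  classical
  unfold r3
  apply Finset.sup_le
  intro S hS
  rw [mem_filter, mem_powerset] at hS
  have := card_le_card hS.1
  simpa using this

theorem r3_zero : r3 0 = 0 := Nat.le_zero.1 (r3_le 0)

theorem r3_mono {a b : ℕ} (h : a ≤ b) : r3 a ≤ r3 b := by
  classical
  unfold r3
  apply Finset.sup_mono
  intro S hS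
  rw [mem_filter, mem_powerset] at hS ⊢
  exact ⟨hS.1.trans (Icc_subset_Icc_right h), hS.2⟩

theorem roth_le (m : ℕ) : rothNumberNat m ≤ r3 m := by
  classical
  obtain ⟨t, ht, hcard, hfree⟩ := rothNumberNat_spec m
  have hinj : Function.Injective (fun x : ℕ => x + 1) := fun x y h => by simpa using h
  have h1 : (t.image (fun x => x + 1)).card = rothNumberNat m := by
    rw [card_image_of_injective _ hinj, hcard]
  rw [← h1]
  unfold r3
  apply Finset.le_sup (f := Finset.card)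
  rw [mem_filter, mem_powerset]
  constructor
  · intro x hx
    obtain ⟨y, hy, rfl⟩ := mem_image.1 hx
    have := mem_range.1 (ht hy)
    rw [mem_Icc]
    omega
  · rintro a d hd ⟨ha, hb, hc⟩
    obtain ⟨x, hx, rfl⟩ := mem_image.1 ha
    obtain ⟨y, hy, hy'⟩ := mem_image.1 hb
    obtain ⟨z, hz, hz'⟩ := mem_image.1 hc
    have := hfree (by exact_mod_cast hx) (by exact_mod_cast hy) (by exact_mod_cast hz)
      (by omega : x + z = y + y)
    omega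

/-- the exponent `4/5` -/
theorem two_le : (2 : ℝ) ≤ (12 / 5 : ℝ) ^ (4 / 5 : ℝ) := by
  have h1 : Real.log 2 ≤ (4 / 5) * Real.log (12 / 5) := by
    have h2 : Real.log ((2 : ℝ) ^ 5) ≤ Real.log ((12 / 5 : ℝ) ^ 4) := by
      apply Real.log_le_log (by norm_num)
      norm_num
    rw [Real.log_pow, Real.log_pow] at h2
    push_cast at h2
    linarith
  rw [Real.rpow_def_of_pos (by norm_num)]
  calc (2 : ℝ) = Real.exp (Real.log 2) := (Real.exp_log (by norm_num)).symm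
    _ ≤ _ := Real.exp_le_exp.2 (by linarith)

theorem concave_step {a b m : ℝ} (ha : 0 ≤ a) (hb : 0 ≤ b) (hm : 15 ≤ m)
    (h : a + b ≤ 3 / 4 * m + 5 / 4) :
    a ^ (4 / 5 : ℝ) + b ^ (4 / 5 : ℝ) ≤ m ^ (4 / 5 : ℝ) := by
  have hc := (Real.concaveOn_rpow (p := (4 / 5 : ℝ)) (by norm_num) (by norm_num)).2
    (Set.mem_Ici.2 ha) (Set.mem_Ici.2 hb) (show (0 : ℝ) ≤ 1 / 2 by norm_num)
    (show (0 : ℝ) ≤ 1 / 2 by norm_num) (by norm_num)
  simp only [smul_eq_mul] at hc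
  have h0 : 0 ≤ (1 / 2 * a + 1 / 2 * b) := by positivity
  have h1 : a ^ (4 / 5 : ℝ) + b ^ (4 / 5 : ℝ) ≤ 2 * (1 / 2 * a + 1 / 2 * b) ^ (4 / 5 : ℝ) := by
    linarith
  have h2 : 2 * (1 / 2 * a + 1 / 2 * b) ^ (4 / 5 : ℝ) ≤
      (12 / 5 : ℝ) ^ (4 / 5 : ℝ) * (1 / 2 * a + 1 / 2 * b) ^ (4 / 5 : ℝ) :=
    mul_le_mul_of_nonneg_right two_le (Real.rpow_nonneg h0 _)
  rw [← Real.mul_rpow (by norm_num) h0] at h2
  have h3 : ((12 / 5 : ℝ) * (1 / 2 * a + 1 / 2 * b)) ^ (4 / 5 : ℝ) ≤ m ^ (4 / 5 : ℝ) := by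
    apply Real.rpow_le_rpow (by positivity) _ (by norm_num)
    linarith
  linarith

/-- the recursion that would follow from `A ≥ B` -/
theorem recursion (hAB : ∀ n : ℕ, 1 ≤ n → B n ≤ A n) (m : ℕ) (hm : 1 ≤ m) :
    ∃ a b : ℕ, 4 * (a + b) ≤ 3 * m + 5 ∧ r3 m ≤ r3 a + r3 b := by
  have h := hAB (3 * m) (by omega)
  unfold A B at h
  rw [ceil_third] at h
  have h2 : r3 m ≤ (antidiagonal ⌈((3 * m : ℕ) : ℚ) / 2⌉₊).sup
    (fun kl => r3 ⌈(kl.1 : ℚ) / 2⌉₊ + r3 ⌈(kl.2 : ℚ) / 2⌉₊) := by omega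
  obtain ⟨kl, hkl, heq⟩ := Finset.exists_mem_eq_sup (antidiagonal ⌈((3 * m : ℕ) : ℚ) / 2⌉₊)
    ⟨(0, _), by rw [HasAntidiagonal.mem_antidiagonal, zero_add]⟩
    (fun kl : ℕ × ℕ => r3 ⌈(kl.1 : ℚ) / 2⌉₊ + r3 ⌈(kl.2 : ℚ) / 2⌉₊)
  rw [heq] at h2
  rw [HasAntidiagonal.mem_antidiagonal] at hkl
  have h3 := ceil_half_le (3 * m)
  refine ⟨(kl.1 + 1) / 2, (kl.2 + 1) / 2, by omega, ?_⟩
  exact h2.trans (add_le_add (r3_mono (ceil_half_le _)) (r3_mono (ceil_half_le _)))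

theorem upper (hAB : ∀ n : ℕ, 1 ≤ n → B n ≤ A n) (m : ℕ) :
    (r3 m : ℝ) ≤ 15 * (m : ℝ) ^ (4 / 5 : ℝ) := by
  induction m using Nat.strong_induction_on with
  | _ m ih =>
    rcases Nat.eq_zero_or_pos m with rfl | hm
    · rw [r3_zero]
      simp
    rcases Nat.lt_or_ge m 15 with h15 | h15
    · have h1 : (r3 m : ℝ) ≤ 15 := by
        have : r3 m ≤ 15 := (r3_le m).trans h15.le
        exact_mod_cast this
      have h2 : (1 : ℝ) ≤ (m : ℝ) ^ (4 / 5 : ℝ) :=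
        Real.one_le_rpow (by exact_mod_cast hm) (by norm_num)
      linarith
    · obtain ⟨a, b, hab, hr⟩ := recursion hAB m hm
      have ha := ih a (by omega)
      have hb := ih b (by omega)
      have hr' : (r3 m : ℝ) ≤ r3 a + r3 b := by exact_mod_cast hr
      have hab' : 4 * ((a : ℝ) + b) ≤ 3 * m + 5 := by exact_mod_cast hab
      have := concave_step (a := (a : ℝ)) (b := (b : ℝ)) (m := (m : ℝ)) (by positivity)
        (by positivity) (by exact_mod_cast h15) (by linarith)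
      linarith

/-- **Main theorem.** There is a positive integer `n` with `A(n) < B(n)`. -/
theorem result : ∃ n : ℕ, 1 ≤ n ∧ A n < B n := by
  by_contra hcon
  have hAB : ∀ n : ℕ, 1 ≤ n → B n ≤ A n := by
    intro n hn
    by_contra h
    exact hcon ⟨n, hn, not_le.1 h⟩
  set N : ℕ := ⌈Real.exp 10000⌉₊ with hN
  have hNpos : (0 : ℝ) < N := lt_of_lt_of_le (Real.exp_pos 10000) (Nat.le_ceil _)
  have hlog : (10000 : ℝ) ≤ Real.log N := by
    rw [Real.le_log_iff_exp_le hNpos]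
    exact Nat.le_ceil _
  have h1 := Behrend.roth_lower_bound (N := N)
  have h2 : ((rothNumberNat N : ℕ) : ℝ) ≤ r3 N := by exact_mod_cast roth_le N
  have h3 := upper hAB N
  have h4 : (N : ℝ) * Real.exp (-4 * √(Real.log N)) ≤ 15 * (N : ℝ) ^ (4 / 5 : ℝ) :=
    h1.trans (h2.trans h3)
  set t : ℝ := √(Real.log N) with ht
  have ht2 : t * t = Real.log N := Real.mul_self_sqrt (by linarith)
  have ht100 : 100 ≤ t := by
    rw [ht]
    apply Real.le_sqrt_of_sq_le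
    norm_num
    exact hlog
  have hNe : (N : ℝ) = Real.exp (t * t) := by rw [ht2, Real.exp_log hNpos]
  have h5 : (N : ℝ) ^ (4 / 5 : ℝ) = Real.exp (4 / 5 * (t * t)) := by
    rw [Real.rpow_def_of_pos hNpos, ← ht2]
    ring_nf
  have h6 : (15 : ℝ) ≤ Real.exp 14 := by
    have := Real.add_one_le_exp (14 : ℝ)
    linarith
  rw [h5] at h4
  have h7 : Real.exp (t * t) * Real.exp (-4 * t) ≤ Real.exp 14 * Real.exp (4 / 5 * (t * t)) := by
    rw [← hNe]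
    refine h4.trans ?_
    exact mul_le_mul_of_nonneg_right h6 (Real.exp_pos _).le
  rw [← Real.exp_add, ← Real.exp_add, Real.exp_le_exp] at h7
  nlinarith

end Pool.Agent.Results.MP_ca5fbf_co.SecondFormulaLarger
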